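import Pool.Agent.R478.BES.Final

/-!
# Q1: the sum `∑ (-1)^{Tr(x^{2^k+1} + x^{-1})}` does not depend on `k`

For a finite field `F` with `2 ^ n` elements and every `k` coprime to `n`,
`∑_{x ≠ 0} (-1)^{Tr(x^{2^k+1} + x^{-1})} = ∑_{x ≠ 0} (-1)^{Tr(x^3 + x^{-1})}`.

Proof: put `q = |F|`, `χ(x) = (-1)^{Tr x}`, and let `V` have the basis `F^* ∪ {0₊, 0₋, ∞}`. The sum
is the trace of `M ∘ σ`, where `σ` is the Frobenius power permuting the basis and `M` is an explicit
`(q+2) × (q+2)` matrix extending `χ(xy + 1/y)`. The matrix `M` commutes with the matrices `K_z`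
(`z ∈ F^*`) extending `χ(1/y) ∑_{u² + u = xyz} χ(u (1/x + 1/y + 1/z))`. These commute with each
other, are Hermitian up to a scalar, and the basis vector `∞` is cyclic for them. So the joint
eigenspaces are lines, `σ` permutes them, and acts trivially on each line it fixes (because it fixes
the cyclic vector); so the trace of `M ∘ σ` is the sum of the eigenvalues of `M` on the lines fixed
by `σ`, and these lines are the same for all generators `σ` of the Galois group.
-/

set_option autoImplicit false

namespace Pool.Agent.Results.MP_2c585b_nt.GoldInverseSum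

open Pool.Agent.R478.BES

variable {F : Type*} [Field F] [Fintype F] [Algebra (ZMod 2) F]

theorem neg_one_sq : (-1 : ℂ) ^ 2 = 1 := by norm_num

/-- the additive character `(-1)^Tr`. -/
noncomputable def chi (F : Type*) [Field F] [Fintype F] [Algebra (ZMod 2) F] : AddChar F ℂ :=
  (AddChar.zmodChar 2 neg_one_sq).compAddMonoidHom
    (Algebra.trace (ZMod 2) F).toAddMonoidHom

theorem chi_apply (x : F) :
    chi F x = (((-1 : ℤ) ^ (Algebra.trace (ZMod 2) F x).val : ℤ) : ℂ) := by
  show AddChar.zmodChar 2 neg_one_sq (Algebra.trace (ZMod 2) F x) = _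
  rw [AddChar.zmodChar_apply]
  push_cast
  rfl

theorem chi_ne_one : chi F ≠ 1 := by
  intro h
  apply Algebra.trace_ne_zero (ZMod 2) F
  ext x
  have h1 : chi F x = 1 := by rw [h]; rfl
  rw [chi_apply] at h1
  have h2 : ((-1 : ℤ) ^ (Algebra.trace (ZMod 2) F x).val) = 1 := by exact_mod_cast h1
  generalize Algebra.trace (ZMod 2) F x = t at h2 ⊢
  fin_cases t
  · rfl
  · exfalso
    revert h2
    decide

theorem chi_equiv (φ : F ≃+* F) (x : F) : chi F (φ x) = chi F x := by
  have h : ∀ r : ZMod 2, φ (algebraMap (ZMod 2) F r) = algebraMap (ZMod 2) F r := by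
    intro r
    exact RingHom.congr_fun (Subsingleton.elim (((φ : F →+* F)).comp (algebraMap (ZMod 2) F))
      (algebraMap (ZMod 2) F)) r
  have h2 := Algebra.trace_eq_of_algEquiv (AlgEquiv.ofRingEquiv (f := φ) h) x
  rw [chi_apply, chi_apply]
  rw [← h2]
  rfl

/-- **Q1 holds** (for all `n`, odd or even): let `F` be a field with `2 ^ n` elements and let `k` be
coprime to `n`. Then `∑_{x ≠ 0} (-1)^{Tr(x^{2^k+1} + x⁻¹)} = ∑_{x ≠ 0} (-1)^{Tr(x^3 + x⁻¹)}`. -/
theorem result (F : Type) [Field F] [Fintype F] [DecidableEq F] [Algebra (ZMod 2) F] (n k : ℕ)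
    (hF : Fintype.card F = 2 ^ n) (hk : Nat.Coprime k n) :
    ∑ x : Fˣ, (-1 : ℤ) ^ (Algebra.trace (ZMod 2) F ((x : F) ^ (2 ^ k + 1) + (x : F)⁻¹)).val =
      ∑ x : Fˣ, (-1 : ℤ) ^ (Algebra.trace (ZMod 2) F ((x : F) ^ 3 + (x : F)⁻¹)).val := by
  haveI : CharP F 2 := charP_of_injective_algebraMap (algebraMap (ZMod 2) F).injective 2
  by_cases hcard : 2 < Fintype.card F
  · have hn : 1 < n := by
      rw [hF] at hcard
      by_contra h
      have : n ≤ 1 := by omega
      have := Nat.pow_le_pow_right (n := 2) (by norm_num) this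
      omega
    have hpow : ∀ (j : ℕ) (x : Fˣ), ((uu (iterateFrobeniusEquiv F 2 j) x : Fˣ)) = x ^ 2 ^ j := by
      intro j x
      ext
      rw [coe_uu, iterateFrobeniusEquiv_def]
      simp
    have hFx : ∀ x : Fˣ, x ^ 2 ^ n = x := by
      intro x
      ext
      rw [Units.val_pow_eq_pow_val, ← hF, FiniteField.pow_card]
    have hFm : ∀ (m : ℕ) (x : Fˣ), x ^ 2 ^ (n * m) = x := by
      intro m
      induction m with
      | zero => intro x; simp
      | succ m ih =>
        intro x
        rw [Nat.mul_succ, pow_add, pow_mul, ih, hFx]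
    have hpi : ∀ f : Fˣ → ℂ, f ∘ uu (iterateFrobeniusEquiv F 2 k) = f ↔
        f ∘ uu (iterateFrobeniusEquiv F 2 1) = f := by
      intro f
      constructor
      · intro h
        have h1 : ∀ (m : ℕ) (x : Fˣ), f (x ^ 2 ^ (k * m)) = f x := by
          intro m
          induction m with
          | zero => intro x; simp
          | succ m ih =>
            intro x
            have h2 := congrFun h (x ^ 2 ^ (k * m))
            simp only [Function.comp_apply, hpow] at h2
            rw [Nat.mul_succ, pow_add, pow_mul, h2, ih]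
        obtain ⟨m, -, hm⟩ := Nat.exists_mul_mod_eq_one_of_coprime hk hn
        have h3 : k * m = n * (k * m / n) + 1 := by
          have := Nat.div_add_mod (k * m) n
          omega
        funext x
        simp only [Function.comp_apply, hpow]
        have h4 := h1 m x
        rw [h3, pow_add, pow_mul, hFm] at h4
        exact h4
      · intro h
        have h1 : ∀ (m : ℕ) (x : Fˣ), f (x ^ 2 ^ m) = f x := by
          intro m
          induction m with
          | zero => intro x; simp
          | succ m ih =>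
            intro x
            have h2 := congrFun h (x ^ 2 ^ m)
            simp only [Function.comp_apply, hpow, pow_one] at h2
            rw [pow_succ, pow_mul, h2, ih]
        funext x
        simp only [Function.comp_apply, hpow]
        exact h1 k x
    have key := main (chi F) chi_ne_one hcard (iterateFrobeniusEquiv F 2 k)
      (iterateFrobeniusEquiv F 2 1) (chi_equiv _) (chi_equiv _) hpi
    have e1 : ∀ x : Fˣ, chi F (x * iterateFrobeniusEquiv F 2 k x + (x : F)⁻¹) =
        (((-1 : ℤ) ^ (Algebra.trace (ZMod 2) F ((x : F) ^ (2 ^ k + 1) + (x : F)⁻¹)).val : ℤ) : ℂ) := by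
      intro x
      rw [iterateFrobeniusEquiv_def, ← pow_succ', chi_apply]
    have e2 : ∀ x : Fˣ, chi F (x * iterateFrobeniusEquiv F 2 1 x + (x : F)⁻¹) =
        (((-1 : ℤ) ^ (Algebra.trace (ZMod 2) F ((x : F) ^ 3 + (x : F)⁻¹)).val : ℤ) : ℂ) := by
      intro x
      rw [iterateFrobeniusEquiv_def, ← pow_succ', chi_apply]
      rfl
    rw [Finset.sum_congr rfl fun x _ => e1 x, Finset.sum_congr rfl fun x _ => e2 x] at key
    exact_mod_cast key
  · have hle : Fintype.card F ≤ 2 := by omega
    have h1 : Fintype.card Fˣ ≤ 1 := by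
      rw [Fintype.card_units]; omega
    haveI : Subsingleton Fˣ := Fintype.card_le_one_iff_subsingleton.1 h1
    refine Finset.sum_congr rfl fun x _ => ?_
    have : x = 1 := Subsingleton.elim _ _
    rw [this]
    simp

end Pool.Agent.Results.MP_2c585b_nt.GoldInverseSum
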